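import Mathlib

/-! Asplund spaces: products and Hilbert spaces; density characters. -/

open Cardinal

namespace Pool.Agent.Y421.SD

open scoped Classical ENNReal

/-- Density character: least cardinality of a dense subset. -/
noncomputable def dens (X : Type) [TopologicalSpace X] : Cardinal.{0} :=
  sInf {c : Cardinal.{0} | ∃ s : Set X, Dense s ∧ #s = c}

/-- Asplund spaces: all closed separable subspaces have separable duals. -/
def IsAsplund (X : Type) [NormedAddCommGroup X] [NormedSpace ℝ X] : Prop :=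
  ∀ Y : Submodule ℝ X, IsClosed (Y : Set X) → TopologicalSpace.SeparableSpace Y →
    TopologicalSpace.SeparableSpace (Y →L[ℝ] ℝ)

theorem dens_spec (X : Type) [TopologicalSpace X] : ∃ s : Set X, Dense s ∧ #s = dens X := by
  have h : {c : Cardinal.{0} | ∃ s : Set X, Dense s ∧ #s = c}.Nonempty :=
    ⟨_, Set.univ, dense_univ, rfl⟩
  exact csInf_mem h

theorem dens_le {X : Type} [TopologicalSpace X] {s : Set X} (hs : Dense s) : dens X ≤ #s :=
  csInf_le' ⟨s, hs, rfl⟩

theorem le_dens {X I : Type} [PseudoMetricSpace X] (u : I → X)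
    (hu : ∀ i j, i ≠ j → 1 ≤ dist (u i) (u j)) : #I ≤ dens X := by
  obtain ⟨s, hs, hc⟩ := dens_spec X
  rw [← hc]
  have h : ∀ i, ∃ y : s, dist (u i) y.1 < 1 / 2 := by
    intro i
    obtain ⟨y, hy, hd⟩ := Metric.dense_iff.1 hs (u i) (1 / 2) (by norm_num)
    exact ⟨⟨y, hd⟩, by rw [dist_comm]; exact hy⟩
  choose y hy using h
  refine Cardinal.mk_le_of_injective (f := y) fun i j hij => ?_
  by_contra hne
  have h1 := hu i j hne
  have h2 := dist_triangle_right (u i) (u j) (y i).1
  have h3 := hy i
  have h4 := hy j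
  rw [← hij] at h4
  linarith

theorem dens_image_le {A B : Type} [TopologicalSpace A] [TopologicalSpace B] (f : A → B)
    (hf : Continuous f) (hs : Function.Surjective f) : dens B ≤ dens A := by
  obtain ⟨s, hs1, hs2⟩ := dens_spec A
  rw [← hs2]
  exact (dens_le (hs.denseRange.dense_image hf hs1)).trans Cardinal.mk_image_le

theorem dens_prod_le {A B : Type} [TopologicalSpace A] [TopologicalSpace B]
    {lam : Cardinal.{0}} (hl : ℵ₀ ≤ lam) (hA : dens A ≤ lam) (hB : dens B ≤ lam) :
    dens (A × B) ≤ lam := by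
  obtain ⟨s, hs1, hs2⟩ := dens_spec A
  obtain ⟨t, ht1, ht2⟩ := dens_spec B
  refine (dens_le (hs1.prod ht1)).trans ?_
  rw [Cardinal.mk_setProd, hs2, ht2]
  exact Cardinal.mul_le_of_le hl hA hB

/-- `ℓ²(Γ)`. -/
abbrev L2 (Γ : Type) : Type := lp (fun _ : Γ => ℝ) 2

theorem dens_l2 {Γ : Type} (hΓ : ℵ₀ ≤ #Γ) : dens (L2 Γ) = #Γ := by
  apply le_antisymm
  · let j : Finset (Γ × ℚ) → L2 Γ := fun s => ∑ p ∈ s, lp.single 2 p.1 ((p.2 : ℚ) : ℝ)
    have hdense : Dense (Set.range j) := by
      rw [Metric.dense_iff]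
      intro y r hr
      have hsum := lp.hasSum_single (p := 2) (by norm_num) y
      obtain ⟨s, hs⟩ := (Metric.tendsto_atTop.1 hsum (r / 2) (by positivity))
      have hs := hs s le_rfl
      have hd : ∀ γ : Γ, ∃ d : ℚ, ‖y γ - d‖ < r / (2 * (s.card + 1)) := by
        intro γ
        obtain ⟨d, hd⟩ := Rat.denseRange_cast.exists_dist_lt (y γ)
          (show (0 : ℝ) < r / (2 * (s.card + 1)) by positivity)
        exact ⟨d, by rw [← dist_eq_norm]; exact hd⟩
      choose d hd using hd
      have hinj : Function.Injective (fun γ : Γ => (γ, d γ)) := fun a b h => (Prod.mk.inj h).1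
      refine ⟨j (s.map ⟨_, hinj⟩), ?_, ⟨_, rfl⟩⟩
      have h1 : j (s.map ⟨_, hinj⟩) = ∑ γ ∈ s, lp.single 2 γ ((d γ : ℚ) : ℝ) := by
        simp only [j]
        rw [Finset.sum_map]
        rfl
      rw [h1, Metric.mem_ball]
      refine (dist_triangle _ (∑ γ ∈ s, lp.single 2 γ (y γ)) _).trans_lt ?_
      have h2 : dist (∑ γ ∈ s, lp.single 2 γ ((d γ : ℚ) : ℝ) : L2 Γ)
          (∑ γ ∈ s, lp.single 2 γ (y γ)) ≤ r / 2 := by
        rw [dist_comm, dist_eq_norm, ← Finset.sum_sub_distrib]
        refine (norm_sum_le _ _).trans ?_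
        calc ∑ γ ∈ s, ‖(lp.single 2 γ (y γ) : L2 Γ) - lp.single 2 γ ((d γ : ℚ) : ℝ)‖
            ≤ ∑ γ ∈ s, r / (2 * (s.card + 1)) := by
              refine Finset.sum_le_sum fun γ _ => ?_
              rw [← lp.single_sub]
              rw [lp.norm_single (by norm_num)]
              exact (hd γ).le
          _ = s.card * (r / (2 * (s.card + 1))) := by rw [Finset.sum_const, nsmul_eq_mul]
          _ ≤ r / 2 := by
              rw [mul_div_assoc', div_le_div_iff₀ (by positivity) (by positivity)]
              nlinarith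
      linarith
    refine (dens_le hdense).trans (Cardinal.mk_range_le.trans ?_)
    have : Infinite Γ := Cardinal.infinite_iff.2 hΓ
    rw [Cardinal.mk_finset_of_infinite, Cardinal.mk_prod, Cardinal.lift_id, Cardinal.lift_id]
    exact Cardinal.mul_le_of_le hΓ le_rfl (by simp)
  · refine le_dens (fun γ => lp.single 2 γ (1 : ℝ)) fun γ δ hne => ?_
    rw [dist_eq_norm]
    have h1 := lp.norm_apply_le_norm (p := 2) (by norm_num)
      (lp.single 2 γ (1 : ℝ) - lp.single 2 δ (1 : ℝ) : L2 Γ) γ
    have h2 : (lp.single 2 γ (1 : ℝ) - lp.single 2 δ (1 : ℝ) : L2 Γ) γ = 1 := by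
      rw [lp.coeFn_sub, Pi.sub_apply]
      rw [lp.single_apply_self, lp.single_apply_ne _ _ _ hne, sub_zero]
    rw [h2, norm_one] at h1
    exact h1

theorem asplund_l2 (Γ : Type) : IsAsplund (L2 Γ) := by
  intro Y hY hsep
  have : CompleteSpace Y := hY.completeSpace_coe
  exact (InnerProductSpace.toDual ℝ Y).surjective.denseRange.separableSpace
    (InnerProductSpace.toDual ℝ Y).continuous

theorem asplund_prod {A B : Type} [NormedAddCommGroup A] [NormedSpace ℝ A]
    [NormedAddCommGroup B] [NormedSpace ℝ B] (hA : IsAsplund A) (hB : IsAsplund B) :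
    IsAsplund (A × B) := by
  intro Y hY hsep
  let A' : Submodule ℝ A := (Y.map (LinearMap.fst ℝ A B)).topologicalClosure
  let B' : Submodule ℝ B := (Y.map (LinearMap.snd ℝ A B)).topologicalClosure
  have hYs : TopologicalSpace.IsSeparable (Y : Set (A × B)) := by
    have h1 : (Y : Set (A × B)) = Set.range (Subtype.val : Y → A × B) := by simp
    rw [h1]
    exact TopologicalSpace.isSeparable_range continuous_subtype_val
  have hA's : TopologicalSpace.SeparableSpace A' := by
    have h1 : TopologicalSpace.IsSeparable (A' : Set A) := by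
      change TopologicalSpace.IsSeparable (closure ((Y.map (LinearMap.fst ℝ A B)) : Set A))
      refine TopologicalSpace.IsSeparable.closure ?_
      exact hYs.image continuous_fst
    exact h1.separableSpace
  have hB's : TopologicalSpace.SeparableSpace B' := by
    have h1 : TopologicalSpace.IsSeparable (B' : Set B) := by
      change TopologicalSpace.IsSeparable (closure ((Y.map (LinearMap.snd ℝ A B)) : Set B))
      refine TopologicalSpace.IsSeparable.closure ?_
      exact hYs.image continuous_snd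
    exact h1.separableSpace
  have h1 := hA A' (Submodule.isClosed_topologicalClosure _) hA's
  have h2 := hB B' (Submodule.isClosed_topologicalClosure _) hB's
  let pf : Y →L[ℝ] A' := ((ContinuousLinearMap.fst ℝ A B).comp Y.subtypeL).codRestrict A'
    fun y => Submodule.le_topologicalClosure _ ⟨y.1, y.2, rfl⟩
  let ps : Y →L[ℝ] B' := ((ContinuousLinearMap.snd ℝ A B).comp Y.subtypeL).codRestrict B'
    fun y => Submodule.le_topologicalClosure _ ⟨y.1, y.2, rfl⟩
  let Ψ : (A' →L[ℝ] ℝ) × (B' →L[ℝ] ℝ) → (Y →L[ℝ] ℝ) := fun p => p.1.comp pf + p.2.comp ps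
  have hΨ : Continuous Ψ :=
    (continuous_fst.clm_comp continuous_const).add (continuous_snd.clm_comp continuous_const)
  have hsurj : Function.Surjective Ψ := by
    intro F
    obtain ⟨G, hG, -⟩ := exists_extension_norm_eq Y F
    refine ⟨((G.comp (ContinuousLinearMap.inl ℝ A B)).comp A'.subtypeL,
      (G.comp (ContinuousLinearMap.inr ℝ A B)).comp B'.subtypeL), ?_⟩
    ext y
    change G (y.1.1, 0) + G (0, y.1.2) = F y
    rw [← map_add, ← hG y]
    congr 1
    simp
  exact hsurj.denseRange.separableSpace hΨ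

end Pool.Agent.Y421.SD
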