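import Mathlib
import Pool.Agent.Helper570.SSD
import Pool.Agent.Helper570.Asplund
import Pool.Agent.Helper570.Bump
import Pool.Agent.Helper570.Nonsep
import Pool.Agent.Y421.SD.A

/-! The density character of the space of the tree is the continuum. -/

open Cardinal

namespace Pool.Agent.Y421.SD

open Pool.Agent.Helper570.Tree (Node W X)

theorem mk_node_le : #Node ≤ 𝔠 := by
  let e : Node → (Σ a : W, (Set.Iio a → ℕ)) := fun t => ⟨t.len, fun c => t.val c.1⟩
  have he : Function.Injective e := by
    rintro ⟨l, v, hv⟩ ⟨l', v', hv'⟩ h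
    simp only [e, Sigma.mk.injEq] at h
    obtain ⟨rfl, h⟩ := h
    have h := eq_of_heq h
    refine Pool.Agent.Helper570.Tree.Node.ext rfl ?_
    funext c
    rcases lt_or_ge c l with hc | hc
    · exact congrFun h ⟨c, hc⟩
    · change v c = v' c
      rw [hv c hc, hv' c hc]
  refine (Cardinal.mk_le_of_injective he).trans ?_
  rw [Cardinal.mk_sigma]
  have h1 : ∀ a : W, #(Set.Iio a → ℕ) ≤ 𝔠 := by
    intro a
    rw [← Cardinal.power_def, Cardinal.mk_nat, ← Cardinal.aleph0_power_aleph0]
    exact Cardinal.power_le_power_left Cardinal.aleph0_ne_zero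
      (Cardinal.le_aleph0_iff_set_countable.2 (Pool.Agent.Helper570.Tree.countable_Iio a))
  refine (Cardinal.sum_le_sum _ _ h1).trans ?_
  rw [Cardinal.sum_const, Cardinal.lift_id, Cardinal.lift_id]
  refine Cardinal.mul_le_of_le Cardinal.aleph0_le_continuum ?_ le_rfl
  have h2 : #W = ℵ₁ := by
    change #((Cardinal.aleph 1).ord.ToType) = _
    rw [Cardinal.mk_toType, Cardinal.card_ord]
  rw [h2]
  exact Cardinal.aleph_one_le_continuum

theorem le_mk_node : 𝔠 ≤ #Node := by
  obtain ⟨s⟩ : Nonempty (ℕ ↪ W) := by
    rw [← Cardinal.le_def, Cardinal.mk_nat]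
    have h2 : #W = ℵ₁ := by
      change #((Cardinal.aleph 1).ord.ToType) = _
      rw [Cardinal.mk_toType, Cardinal.card_ord]
    rw [h2]
    exact Cardinal.aleph0_lt_aleph_one.le
  obtain ⟨b, hb⟩ := Pool.Agent.Helper570.Tree.exists_ub s
  classical
  let g : (ℕ → ℕ) → Node := fun x =>
    { len := Order.succ b
      val := fun c => if h : ∃ n, s n = c then x h.choose else 0
      pad := fun c hc => by
        refine dif_neg ?_
        rintro ⟨n, rfl⟩
        exact absurd (lt_of_lt_of_le (Order.lt_succ b) hc) (not_lt.2 (hb n)) }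
  have hg : Function.Injective g := by
    intro x y h
    funext n
    have h1 := congrFun (congrArg Pool.Agent.Helper570.Tree.Node.val h) (s n)
    have h2 : ∃ m, s m = s n := ⟨n, rfl⟩
    have h3 : h2.choose = n := s.injective h2.choose_spec
    change (if h : ∃ m, s m = s n then x h.choose else 0) =
      (if h : ∃ m, s m = s n then y h.choose else 0) at h1
    rw [dif_pos h2, dif_pos h2, h3] at h1
    exact h1
  have h1 : #(ℕ → ℕ) = 𝔠 := by
    rw [← Cardinal.power_def, Cardinal.mk_nat, Cardinal.aleph0_power_aleph0]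
  rw [← h1]
  exact Cardinal.mk_le_of_injective hg

theorem dens_X : dens X = 𝔠 := by
  apply le_antisymm
  · have hdense : DenseRange (Finsupp.linearCombination ℝ Pool.Agent.Helper570.Tree.chi) := by
      intro x
      have hiso : Isometry Pool.Agent.Helper570.Tree.inc :=
        AddMonoidHomClass.isometry_of_norm _ fun f => Pool.Agent.Helper570.Tree.inc_norm f
      rw [hiso.isEmbedding.isInducing.closure_eq_preimage_closure_image]
      have h1 : x.1 ∈ closure ((Submodule.span ℝ
          (Set.range Pool.Agent.Helper570.Tree.chiB) : Submodule ℝ _) :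
          Set Pool.Agent.Helper570.Tree.B) := x.2
      rw [Set.mem_preimage]
      refine closure_mono ?_ h1
      intro y hy
      rw [SetLike.mem_coe, ← Finsupp.range_linearCombination] at hy
      obtain ⟨z, rfl⟩ := hy
      refine ⟨_, ⟨z, rfl⟩, ?_⟩
      change Pool.Agent.Helper570.Tree.inc (Finsupp.linearCombination ℝ _ z) = _
      rw [Finsupp.linearCombination_apply, Finsupp.linearCombination_apply, Finsupp.sum,
        Finsupp.sum, map_sum]
      refine Finset.sum_congr rfl fun s _ => ?_
      rw [map_smul]
      rfl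
    refine (dens_le hdense).trans (Cardinal.mk_range_le.trans ?_)
    have : Infinite Node := by
      rw [Cardinal.infinite_iff]
      exact Cardinal.aleph0_le_continuum.trans le_mk_node
    rw [Cardinal.mk_finsupp_of_infinite']
    exact max_le mk_node_le (by rw [Cardinal.mk_real])
  · refine le_mk_node.trans ?_
    refine le_dens Pool.Agent.Helper570.Tree.chi fun s t hst => ?_
    rw [dist_eq_norm]
    exact Pool.Agent.Helper570.Tree.one_le_norm_chi_sub hst

end Pool.Agent.Y421.SD
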